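import Pool.Agent.Y472.K.Defs

set_option autoImplicit false

/-! Job TK-GAU: complex Gaussian integrals do not vanish. -/

namespace Pool.Agent.Y86.TK

open MeasureTheory

/-- simultaneous diagonalisation -/
lemma diag {V : Type} [AddCommGroup V] [Module ℝ V] [FiniteDimensional ℝ V]
    (R S : QuadraticForm ℝ V) (hR : R.PosDef) :
    ∃ (n : ℕ) (L : V ≃ₗ[ℝ] (Fin n → ℝ)) (β : Fin n → ℝ), (∀ v, R v = ∑ i, (L v i) ^ 2) ∧
      ∀ v, S v = ∑ i, β i * (L v i) ^ 2 := by
  obtain ⟨w, hw, ⟨e⟩⟩ := R.equivalent_one_zero_neg_one_weighted_sum_squared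
  have hRe : ∀ v, R v = ∑ i, w i * (e v i) ^ 2 := by
    intro v
    rw [← e.map_app v, QuadraticMap.weightedSumSquares_apply]
    refine Finset.sum_congr rfl fun i _ => ?_
    rw [smul_eq_mul]
    ring
  have hw1 : ∀ i, w i = 1 := by
    intro i
    have h0 : e.symm (Pi.single i 1) ≠ 0 := by
      intro h
      have h2 := congrArg e h
      rw [map_zero, e.apply_symm_apply] at h2
      have h3 := congrFun h2 i
      simp at h3
    have h1 := hR _ h0
    rw [hRe, e.apply_symm_apply, Finset.sum_eq_single i] at h1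
    · rw [Pi.single_eq_same, one_pow, mul_one] at h1
      rcases hw i with h | h | h
      · rw [h] at h1; norm_num at h1
      · rw [h] at h1; norm_num at h1
      · exact h
    · intro j _ hj
      rw [Pi.single_eq_of_ne hj]
      ring
    · intro h
      exact absurd (Finset.mem_univ i) h
  set n := Module.finrank ℝ V with hn
  let e1 : V ≃ₗ[ℝ] EuclideanSpace ℝ (Fin n) :=
    e.toLinearEquiv.trans (WithLp.linearEquiv 2 ℝ (Fin n → ℝ)).symm
  have he1 : ∀ v i, e1 v i = e v i := fun v i => rfl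
  let B : LinearMap.BilinForm ℝ V := QuadraticMap.associated S
  have hBs : ∀ x y, B x y = B y x := fun x y => QuadraticMap.associated_isSymm ℝ S x y
  have hBd : ∀ x, B x x = S x := fun x => QuadraticMap.associated_eq_self_apply ℝ S x
  let b0 := EuclideanSpace.basisFun (Fin n) ℝ
  let T : EuclideanSpace ℝ (Fin n) →ₗ[ℝ] EuclideanSpace ℝ (Fin n) :=
    ∑ i, (LinearMap.toSpanSingleton ℝ _ (b0 i)) ∘ₗ ((B.flip (e1.symm (b0 i))) ∘ₗ e1.symm.toLinearMap)
  have hTa : ∀ x, T x = ∑ i, B (e1.symm x) (e1.symm (b0 i)) • b0 i := by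
    intro x
    simp only [T, LinearMap.sum_apply]
    rfl
  have hT : ∀ x y, inner ℝ (T x) y = B (e1.symm x) (e1.symm y) := by
    intro x y
    rw [hTa, sum_inner]
    conv_rhs => rw [← b0.sum_repr' y, map_sum, map_sum]
    refine Finset.sum_congr rfl fun i _ => ?_
    rw [real_inner_smul_left, map_smul, map_smul, smul_eq_mul, mul_comm]
  have hTs : T.IsSymmetric := by
    intro x y
    rw [hT, real_inner_comm, hT, hBs]
  let b := hTs.eigenvectorBasis (finrank_euclideanSpace_fin (𝕜 := ℝ) (n := n))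
  refine ⟨n, (e1.trans b.repr.toLinearEquiv).trans (WithLp.linearEquiv 2 ℝ (Fin n → ℝ)),
    hTs.eigenvalues (finrank_euclideanSpace_fin (𝕜 := ℝ) (n := n)), ?_, ?_⟩
  · intro v
    have h1 : R v = ‖e1 v‖ ^ 2 := by
      rw [EuclideanSpace.norm_sq_eq, hRe]
      refine Finset.sum_congr rfl fun i _ => ?_
      rw [hw1, one_mul, he1, Real.norm_eq_abs, sq_abs]
    have h2 : ‖e1 v‖ = ‖b.repr (e1 v)‖ := (LinearIsometryEquiv.norm_map _ _).symm
    rw [h1, h2, EuclideanSpace.norm_sq_eq]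
    refine Finset.sum_congr rfl fun i _ => ?_
    rw [Real.norm_eq_abs, sq_abs]
    rfl
  · intro v
    have h1 : S v = inner ℝ (T (e1 v)) (e1 v) := by
      rw [hT, e1.symm_apply_apply, hBd]
    have h2 : inner ℝ (T (e1 v)) (e1 v) = inner ℝ (b.repr (T (e1 v))) (b.repr (e1 v)) :=
      (LinearIsometryEquiv.inner_map_map _ _ _).symm
    rw [h1, h2, PiLp.inner_apply]
    refine Finset.sum_congr rfl fun i _ => ?_
    rw [LinearMap.IsSymmetric.eigenvectorBasis_apply_self_apply]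
    simp only [RCLike.inner_apply, conj_trivial]
    show _ = _ * ((b.repr (e1 v)) i) ^ 2
    simp only [RCLike.ofReal_real_eq_id, id_eq]
    ring

lemma prod_ne {n : ℕ} (β : Fin n → ℝ) :
    ∫ x : Fin n → ℝ, Complex.exp (-((∑ i, (x i) ^ 2 : ℝ) : ℂ) -
      Complex.I * ((∑ i, β i * (x i) ^ 2 : ℝ) : ℂ)) ≠ 0 := by
  have h1 : ∀ x : Fin n → ℝ, Complex.exp (-((∑ i, (x i) ^ 2 : ℝ) : ℂ) -
      Complex.I * ((∑ i, β i * (x i) ^ 2 : ℝ) : ℂ)) =
      ∏ i, Complex.exp (-(1 + β i * Complex.I) * ((x i : ℝ) : ℂ) ^ 2) := by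
    intro x
    rw [← Complex.exp_sum]
    congr 1
    push_cast
    rw [← Finset.sum_neg_distrib, Finset.mul_sum, ← Finset.sum_sub_distrib]
    refine Finset.sum_congr rfl fun i _ => ?_
    ring
  simp only [h1]
  rw [integral_fintype_prod_volume_eq_prod (𝕜 := ℂ)
    (fun i (y : ℝ) => Complex.exp (-(1 + β i * Complex.I) * (y : ℂ) ^ 2))]
  rw [Finset.prod_ne_zero_iff]
  intro i _
  have hb : 0 < (1 + β i * Complex.I : ℂ).re := by simp
  rw [integral_gaussian_complex hb]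
  have hne : (1 + β i * Complex.I : ℂ) ≠ 0 := by
    intro h
    rw [h] at hb
    simp at hb
  have h2 : (Real.pi : ℂ) / (1 + β i * Complex.I) ≠ 0 :=
    div_ne_zero (Complex.ofReal_ne_zero.2 Real.pi_ne_zero) hne
  rw [Ne, Complex.cpow_eq_zero_iff]
  exact fun h => h2 h.1

theorem t_GAU : Pool.Agent.Y472.K.S_GAU := by
  intro ι _ R S hR
  obtain ⟨n, L, β, h1, h2⟩ := diag R S hR
  let L' : ((ι → ℝ) × ℝ) ≃L[ℝ] (Fin n → ℝ) := L.toContinuousLinearEquiv
  have hL : ∀ v, L v = L' v := fun v => rfl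
  simp only [h1, h2, hL]
  have h0 : (volume : Measure ((ι → ℝ) × ℝ)).IsAddHaarMeasure := by
    rw [Measure.volume_eq_prod]
    infer_instance
  have hm : (Measure.map L' (volume : Measure ((ι → ℝ) × ℝ))).IsAddHaarMeasure :=
    L'.isAddHaarMeasure_map _
  have h3 : ∫ v, Complex.exp (-((∑ i, (L' v i) ^ 2 : ℝ) : ℂ) -
      Complex.I * ((∑ i, β i * (L' v i) ^ 2 : ℝ) : ℂ)) =
      ∫ x, Complex.exp (-((∑ i, (x i) ^ 2 : ℝ) : ℂ) -
      Complex.I * ((∑ i, β i * (x i) ^ 2 : ℝ) : ℂ)) ∂(Measure.map L' volume) :=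
    (L'.toHomeomorph.measurableEmbedding.integral_map
      (fun x : Fin n → ℝ => Complex.exp (-((∑ i, (x i) ^ 2 : ℝ) : ℂ) -
        Complex.I * ((∑ i, β i * (x i) ^ 2 : ℝ) : ℂ)))).symm
  rw [h3]
  rw [Measure.isAddLeftInvariant_eq_smul
    (Measure.map L' (volume : Measure ((ι → ℝ) × ℝ))) (volume : Measure (Fin n → ℝ)),
    integral_smul_nnreal_measure]
  have hc := Measure.addHaarScalarFactor_pos_of_isAddHaarMeasure
    (Measure.map L' (volume : Measure ((ι → ℝ) × ℝ))) (volume : Measure (Fin n → ℝ))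
  exact smul_ne_zero hc.ne' (prod_ne β)

end Pool.Agent.Y86.TK
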